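import Mathlib
import Pool.Agent.LeoC.UpStmts

/-!
# Module EVS (squad LEOC): coordinates of the mixed space
-/

set_option autoImplicit false
set_option linter.unusedSectionVars false

open NumberField NumberField.InfinitePlace NumberField.mixedEmbedding IsDedekindDomain Module
  MeasureTheory Filter Topology
open Pool.Agent.LeoK Pool.Agent.LeoG Pool.Agent.LeoC

open scoped Classical

namespace Pool.Agent.LeoC.H11

variable {k : Type} [Field k]

theorem ev_real {v : InfinitePlace k} (h : IsReal v) (y : MS k) : ev v y = (y.1 ⟨v, h⟩ : ℂ) := by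
  unfold ev
  rw [dif_pos h]

theorem ev_cplx {v : InfinitePlace k} (h : ¬ IsReal v) (y : MS k) :
    ev v y = y.2 ⟨v, not_isReal_iff_isComplex.mp h⟩ := by
  unfold ev
  rw [dif_neg h]

theorem ev_cplx' {v : InfinitePlace k} (h : IsComplex v) (y : MS k) : ev v y = y.2 ⟨v, h⟩ :=
  ev_cplx (not_isReal_iff_isComplex.mpr h) y

variable [NumberField k]

theorem ev_mixed (v : InfinitePlace k) (x : k) : ev v (mixedEmbedding k x) = v.embedding x := by
  by_cases h : IsReal v
  · rw [ev_real h, mixedEmbedding_apply_isReal, embedding_of_isReal_apply]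
  · rw [ev_cplx h, mixedEmbedding_apply_isComplex]

theorem av_mixed (x : k) (v : InfinitePlace k) : av (mixedEmbedding k x) v = v x := by
  unfold av
  rw [ev_mixed, norm_embedding_eq]

theorem nr_mixed (x : k) : nr (av (mixedEmbedding k x)) = |((Algebra.norm ℚ x : ℚ) : ℝ)| := by
  unfold nr
  simp_rw [av_mixed]
  rw [prod_eq_abs_norm]
  push_cast
  rfl

theorem evs : EvsStmt := by
  intro k _ _
  refine ⟨ev_mixed, ?_, ?_, ?_, ?_, ?_, nr_mixed, av_mixed, ?_⟩
  · intro v y y'
    by_cases h : IsReal v
    · simp only [ev_real h]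
      refine ⟨?_, ?_, ?_, ?_⟩
      · simp
      · simp
      · simp
      · simp
    · simp only [ev_cplx h]
      refine ⟨?_, ?_, ?_, ?_⟩
      · simp
      · simp
      · simp
      · simp
  · intro v t y
    by_cases h : IsReal v
    · simp only [ev_real h]
      simp
    · simp only [ev_cplx h]
      simp
  · intro v n
    by_cases h : IsReal v
    · simp only [ev_real h]
      simp
    · simp only [ev_cplx h]
      simp
  · intro y y' h
    apply Prod.ext
    · funext w
      have h1 := h w.1
      rw [ev_real w.2, ev_real w.2] at h1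
      exact_mod_cast h1
    · funext w
      have h1 := h w.1
      rwa [ev_cplx' w.2, ev_cplx' w.2] at h1
  · intro v
    by_cases h : IsReal v
    · simp only [ev_real h]
      fun_prop
    · simp only [ev_cplx h]
      fun_prop
  · intro x hx
    have h1 : nr (av (mixedEmbedding k (x : k))) = (Ideal.absNorm (Ideal.span {x}) : ℝ) := by
      rw [nr_mixed, Ideal.absNorm_span_singleton]
      have h2 : Algebra.norm ℚ ((x : 𝓞 k) : k) = ((Algebra.norm ℤ x : ℤ) : ℚ) :=
        (Algebra.coe_norm_int x).symm
      rw [h2]
      push_cast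
      rw [Nat.cast_natAbs]
      push_cast
      rfl
    refine ⟨?_, h1⟩
    rw [h1]
    have h3 : Ideal.absNorm (Ideal.span {x}) ≠ 0 := by
      rw [Ne, Ideal.absNorm_eq_zero_iff, Ideal.span_singleton_eq_bot]
      exact hx
    have h4 : 1 ≤ Ideal.absNorm (Ideal.span {x}) := Nat.one_le_iff_ne_zero.2 h3
    exact_mod_cast h4

end Pool.Agent.LeoC.H11
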